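import Mathlib

set_option autoImplicit false

namespace Pool.Agent.Results.MP_bc6ab1_co.EveryK

section defs

variable {S F V : Type} [Field F] [AddCommGroup V] [Module F V]

/-- `φ` is a representation of the matroid `M` by vectors of the `F`-vector space `V`. -/
def Represents (F : Type) {S V : Type} [Field F] [AddCommGroup V] [Module F V]
    (M : Matroid S) (φ : S → V) : Prop :=
  ∀ I : Set S, M.Indep I ↔ LinearIndepOn F φ I

/-- Some `c`-tuple of alternating `k`-forms (that is, of linear functionals on `⋀^k V`)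
distinguishes the `k`-flats of `M` in the representation `φ`: every flat `X` of rank `k` has a
basis `e` on which one of the forms does not vanish. -/
def Distinguish (F : Type) {S V : Type} [Field F] [AddCommGroup V] [Module F V]
    (M : Matroid S) (φ : S → V) (k c : ℕ) : Prop :=
  ∃ L : Fin c → (V [⋀^Fin k]→ₗ[F] F), ∀ X : Set S, M.IsFlat X → M.eRk X = (k : ℕ∞) →
    ∃ i : Fin c, ∃ e : Fin k → S,
      Function.Injective e ∧ M.IsBasis (Set.range e) X ∧ L i (φ ∘ e) ≠ 0

/-- The algebraic critical exponent `c(M, φ, k, q)` of the `k`-flats of `M` in the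
representation `φ`. -/
noncomputable def critExp (F : Type) {S V : Type} [Field F] [AddCommGroup V] [Module F V]
    (M : Matroid S) (φ : S → V) (k : ℕ) : ℕ :=
  sInf {c : ℕ | Distinguish F M φ k c}

end defs

/-- A complete 6-arc of PG(2,7). -/
def v1 : Fin 6 → Fin 3 → ZMod 7 :=
  ![![1,0,0],![0,1,0],![0,0,1],![1,1,1],![1,2,3],![1,3,4]]

/-- An incomplete 6-arc of PG(2,7): it extends by `(1,5,6)`. -/
def v2 : Fin 6 → Fin 3 → ZMod 7 :=
  ![![1,0,0],![0,1,0],![0,0,1],![1,1,1],![1,2,3],![1,3,2]]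

def det3 (a b c : Fin 3 → ZMod 7) : ZMod 7 :=
  a 0 * (b 1 * c 2 - b 2 * c 1) - a 1 * (b 0 * c 2 - b 2 * c 0) + a 2 * (b 0 * c 1 - b 1 * c 0)

instance : Fact (Nat.Prime 7) := ⟨by norm_num⟩

lemma indep_of_det (a b c : Fin 3 → ZMod 7) (h : det3 a b c ≠ 0) :
    LinearIndependent (ZMod 7) ![a, b, c] := by
  have h2 : (Matrix.of ![a, b, c]).det ≠ 0 := by
    rw [Matrix.det_fin_three]
    simp only [Matrix.of_apply, Matrix.cons_val_zero, Matrix.cons_val_one, Matrix.cons_val]
    intro h3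
    apply h
    rw [← h3]
    unfold det3
    ring
  exact Matrix.linearIndependent_rows_of_det_ne_zero h2

lemma linIndepOn_iff (v : Fin 6 → Fin 3 → ZMod 7)
    (hv : ∀ a b c : Fin 6, a ≠ b → a ≠ c → b ≠ c → det3 (v a) (v b) (v c) ≠ 0)
    (I : Set (Fin 6)) : I.encard ≤ 3 ↔ LinearIndepOn (ZMod 7) v I := by
  constructor
  · intro hI
    obtain ⟨J, hIJ, -, hJ⟩ := Set.exists_superset_subset_encard_eq (s := I) (t := Set.univ)
      (k := 3) (Set.subset_univ I) hI (by rw [Set.encard_univ]; simp; norm_num)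
    obtain ⟨a, b, c, hab, hac, hbc, rfl⟩ := Set.encard_eq_three.1 hJ
    have h1 := indep_of_det _ _ _ (hv a b c hab hac hbc)
    have hinj : Function.Injective ![a, b, c] := by
      intro i j hij
      fin_cases i <;> fin_cases j <;> simp_all
    have h2 : (v ∘ ![a, b, c]) = ![v a, v b, v c] := by
      ext i
      fin_cases i <;> rfl
    rw [← h2, ← linearIndepOn_range_iff hinj] at h1
    refine h1.mono ?_
    intro x hx
    have := hIJ hx
    rcases this with rfl | rfl | rfl
    · exact ⟨0, rfl⟩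
    · exact ⟨1, rfl⟩
    · exact ⟨2, rfl⟩
  · intro h
    classical
    have : Fintype I := Fintype.ofFinite I
    have h1 := LinearIndependent.fintype_card_le_finrank h
    rw [Module.finrank_fin_fun] at h1
    rw [Set.encard_eq_coe_toFinset_card, Set.toFinset_card]
    exact_mod_cast h1

/-- The uniform matroid `U_{3,6}` on `Fin 6`. -/
noncomputable def U : Matroid (Fin 6) :=
  (IndepMatroid.ofFinite (E := Set.univ) Set.finite_univ (fun I => I.encard ≤ 3)
    (by simp)
    (fun I J hJ hIJ => (Set.encard_le_encard hIJ).trans hJ)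
    (by
      intro I J _ hJ hIJ
      obtain ⟨e, heJ, heI⟩ := Set.exists_mem_notMem_of_ncard_lt_ncard hIJ
      refine ⟨e, heJ, heI, ?_⟩
      rw [Set.encard_insert_of_notMem heI]
      have h1 : I.encard < J.encard := by
        rw [← (Set.toFinite I).cast_ncard_eq, ← (Set.toFinite J).cast_ncard_eq]
        exact_mod_cast hIJ
      exact (Order.add_one_le_of_lt h1).trans hJ)
    (fun I _ => Set.subset_univ I)).matroid

lemma U_indep (I : Set (Fin 6)) : U.Indep I ↔ I.encard ≤ 3 := Iff.rfl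

lemma U_ground : U.E = Set.univ := rfl

lemma hv1 : ∀ a b c : Fin 6, a ≠ b → a ≠ c → b ≠ c → det3 (v1 a) (v1 b) (v1 c) ≠ 0 := by
  decide

lemma hv2 : ∀ a b c : Fin 6, a ≠ b → a ≠ c → b ≠ c → det3 (v2 a) (v2 b) (v2 c) ≠ 0 := by
  decide

/-- Every point of the plane is on a secant of `v1`. -/
lemma cover : ∀ x y z : ZMod 7, ∃ a b : Fin 6, a ≠ b ∧ det3 ![x, y, z] (v1 a) (v1 b) = 0 := by
  decide

lemma not_cover : ∀ a b : Fin 6, a ≠ b → det3 ![1, 5, 6] (v2 a) (v2 b) ≠ 0 := by
  decide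

/-- No secant of `v1` contains both points `(1,0,0)` and `(1,1,2)`, in the sense of determinants. -/
lemma two_cover : ∀ a b : Fin 6, a ≠ b →
    det3 ![1, 0, 0] (v1 a) (v1 b) ≠ 0 ∨ det3 ![1, 1, 2] (v1 a) (v1 b) ≠ 0 := by
  decide

/-- The plane of the arc plus `m` further dimensions. -/
abbrev V (m : ℕ) : Type := (Fin 3 → ZMod 7) × (Fin m → ZMod 7)

/-- The arc `v` together with `m` independent vectors outside its plane. -/
def emb (m : ℕ) (v : Fin 6 → Fin 3 → ZMod 7) : Fin 6 ⊕ Fin m → V m :=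
  Sum.elim (fun i => (v i, 0)) (fun j => (0, Pi.single j 1))

/-- `U_{3,6}` together with `m` coloops. -/
noncomputable def MM (m : ℕ) : Matroid (Fin 6 ⊕ Fin m) := U.sum (Matroid.freeOn Set.univ)

lemma MM_indep (m : ℕ) (I : Set (Fin 6 ⊕ Fin m)) :
    (MM m).Indep I ↔ (Sum.inl ⁻¹' I : Set (Fin 6)).encard ≤ 3 := by
  rw [MM, Matroid.sum_indep_iff, U_indep]
  simp

lemma MM_ground (m : ℕ) : (MM m).E = Set.univ := by
  rw [MM, Matroid.sum_ground, U_ground]
  ext (a | b) <;> simp

lemma MM_loopless (m : ℕ) : (MM m).Loopless := by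
  rw [Matroid.loopless_iff_forall_isNonloop]
  intro e _
  rw [← Matroid.indep_singleton, MM_indep]
  refine (Set.encard_le_one_iff.2 ?_).trans (by norm_num)
  intro a b ha hb
  simp only [Set.mem_preimage, Set.mem_singleton_iff] at ha hb
  exact Sum.inl_injective (ha.trans hb.symm)

lemma emb_inl (m : ℕ) (v : Fin 6 → Fin 3 → ZMod 7) :
    emb m v ∘ Sum.inl = (LinearMap.inl (ZMod 7) (Fin 3 → ZMod 7) (Fin m → ZMod 7)) ∘ v := by
  ext i <;> simp [emb]

lemma emb_inr (m : ℕ) (v : Fin 6 → Fin 3 → ZMod 7) :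
    emb m v ∘ Sum.inr = (LinearMap.inr (ZMod 7) (Fin 3 → ZMod 7) (Fin m → ZMod 7)) ∘
      (fun j => Pi.single j 1) := by
  ext i <;> simp [emb]

lemma emb_rep (m : ℕ) (v : Fin 6 → Fin 3 → ZMod 7)
    (hv : ∀ a b c : Fin 6, a ≠ b → a ≠ c → b ≠ c → det3 (v a) (v b) (v c) ≠ 0) :
    Represents (ZMod 7) (MM m) (emb m v) := by
  intro I
  rw [MM_indep, linIndepOn_iff v hv]
  constructor
  · intro h
    have h1 : LinearIndepOn (ZMod 7) (emb m v) (Sum.inl '' (Sum.inl ⁻¹' I)) := by
      apply LinearIndepOn.image_of_comp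
      rw [emb_inl]
      exact h.map_injOn _ (LinearMap.inl_injective.injOn)
    have h2 : LinearIndepOn (ZMod 7) (emb m v) (Sum.inr '' Set.univ) := by
      apply LinearIndepOn.image_of_comp
      rw [emb_inr]
      have h3 : LinearIndepOn (ZMod 7) (fun j : Fin m => (Pi.single j 1 : Fin m → ZMod 7))
          Set.univ := by
        rw [linearIndepOn_univ_iff]
        exact Pi.linearIndependent_single_one (Fin m) (ZMod 7)
      exact h3.map_injOn _ (LinearMap.inr_injective.injOn)
    have hd : Disjoint (Submodule.span (ZMod 7) (emb m v '' (Sum.inl '' (Sum.inl ⁻¹' I))))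
        (Submodule.span (ZMod 7) (emb m v '' (Sum.inr '' Set.univ))) := by
      refine Disjoint.mono ?_ ?_ (LinearMap.isCompl_range_inl_inr (R := ZMod 7)
        (M := Fin 3 → ZMod 7) (M₂ := Fin m → ZMod 7)).disjoint
      · rw [Submodule.span_le, ← Set.image_comp, emb_inl]
        rintro _ ⟨x, _, rfl⟩
        exact ⟨_, rfl⟩
      · rw [Submodule.span_le, ← Set.image_comp, emb_inr]
        rintro _ ⟨x, _, rfl⟩
        exact ⟨_, rfl⟩
    refine (h1.union h2 hd).mono ?_
    rintro (x | x) hx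
    · exact Or.inl ⟨x, hx, rfl⟩
    · exact Or.inr ⟨x, trivial, rfl⟩
  · intro h
    have h1 : LinearIndepOn (ZMod 7) (emb m v) (Sum.inl '' (Sum.inl ⁻¹' I)) :=
      h.mono (Set.image_preimage_subset _ _)
    have h2 := h1.comp_of_image Sum.inl_injective.injOn
    rw [emb_inl] at h2
    exact h2.of_comp

section neg

variable {m : ℕ} (L : (V m) [⋀^Fin (m + 2)]→ₗ[ZMod 7] ZMod 7) (t : Fin m → V m)

/-- Fix all but the first two arguments. -/
def G (u w : Fin 3 → ZMod 7) : ZMod 7 :=
  L (Matrix.vecCons ((u, 0) : V m) (Matrix.vecCons ((w, 0) : V m) t))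

lemma alt_swap (u w : Fin 3 → ZMod 7) : G L t w u = - G L t u w := by
  have h := L.map_swap (Matrix.vecCons ((u, 0) : V m) (Matrix.vecCons ((w, 0) : V m) t))
    (i := 0) (j := 1) (by simp)
  unfold G
  rw [← h]
  congr 1
  funext i
  refine Fin.cases ?_ (fun i => ?_) i
  · simp
  · refine Fin.cases ?_ (fun i => ?_) i
    · have : (Fin.succ 0 : Fin (m + 2)) = 1 := rfl
      simp [this]
    · have h1 : (i.succ.succ : Fin (m + 2)) ≠ 0 := Fin.succ_ne_zero _
      have h2 : (i.succ.succ : Fin (m + 2)) ≠ 1 := by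
        intro h
        have := congrArg Fin.val h
        simp at this
      rw [Function.comp_apply, Equiv.swap_apply_of_ne_of_ne h1 h2]
      rfl

lemma alt_self (u : Fin 3 → ZMod 7) : G L t u u = 0 :=
  L.map_eq_zero_of_eq _ (i := 0) (j := 1) rfl (by simp)

lemma alt_left (u w : Fin 3 → ZMod 7) :
    G L t u w = u 0 * G L t (Pi.single 0 1) w + u 1 * G L t (Pi.single 1 1) w
      + u 2 * G L t (Pi.single 2 1) w := by
  have h : ((u, 0) : V m) = u 0 • ((Pi.single 0 1, 0) : V m) + u 1 • ((Pi.single 1 1, 0) : V m)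
      + u 2 • ((Pi.single 2 1, 0) : V m) := by
    ext i
    · fin_cases i <;> simp
    · simp
  unfold G
  rw [h, L.map_vecCons_add, L.map_vecCons_add, L.map_vecCons_smul, L.map_vecCons_smul,
    L.map_vecCons_smul]
  rfl

lemma alt_eq (u w : Fin 3 → ZMod 7) :
    G L t u w = det3 ![G L t (Pi.single 1 1) (Pi.single 2 1),
      - G L t (Pi.single 0 1) (Pi.single 2 1), G L t (Pi.single 0 1) (Pi.single 1 1)] u w := by
  rw [alt_left, alt_swap L t w (Pi.single 0 1), alt_swap L t w (Pi.single 1 1),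
    alt_swap L t w (Pi.single 2 1), alt_left L t w (Pi.single 0 1), alt_left L t w (Pi.single 1 1),
    alt_left L t w (Pi.single 2 1), alt_self, alt_self, alt_self,
    alt_swap L t (Pi.single 0 1) (Pi.single 1 1), alt_swap L t (Pi.single 0 1) (Pi.single 2 1),
    alt_swap L t (Pi.single 1 1) (Pi.single 2 1)]
  simp only [det3, Matrix.cons_val_zero, Matrix.cons_val_one, Matrix.cons_val]
  ring

end neg

lemma pair_le (a b : Fin 6) : ({a, b} : Set (Fin 6)).encard ≤ 2 := by
  refine (Set.encard_insert_le _ _).trans ?_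
  rw [Set.encard_singleton]
  norm_num

/-- The flat spanned by two points of the arc and all coloops. -/
def e0 (m : ℕ) (a b : Fin 6) : Fin (m + 2) → Fin 6 ⊕ Fin m :=
  Matrix.vecCons (Sum.inl a) (Matrix.vecCons (Sum.inl b) Sum.inr)

lemma e0_range (m : ℕ) (a b : Fin 6) :
    Set.range (e0 m a b) = Sum.inl '' {a, b} ∪ Set.range Sum.inr := by
  unfold e0
  rw [Matrix.range_cons, Matrix.range_cons, ← Set.union_assoc, Set.image_pair]
  rfl

lemma e0_inj (m : ℕ) (a b : Fin 6) (hab : a ≠ b) : Function.Injective (e0 m a b) := by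
  unfold e0
  intro i j
  refine Fin.cases ?_ (fun i => ?_) i <;> refine Fin.cases ?_ (fun j => ?_) j
  · simp
  · refine Fin.cases ?_ (fun j => ?_) j
    · simp [hab]
    · simp
  · refine Fin.cases ?_ (fun i => ?_) i
    · simp [Ne.symm hab]
    · simp
  · refine Fin.cases ?_ (fun i => ?_) i <;> refine Fin.cases ?_ (fun j => ?_) j
    · simp
    · simp
    · simp
    · simp

lemma e0_pre (m : ℕ) (a b : Fin 6) :
    (Sum.inl ⁻¹' (Set.range (e0 m a b)) : Set (Fin 6)) = {a, b} := by
  rw [e0_range]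
  ext x
  simp

lemma e0_indep (m : ℕ) (a b : Fin 6) : (MM m).Indep (Set.range (e0 m a b)) := by
  rw [MM_indep, e0_pre]
  exact (pair_le a b).trans (by norm_num)

lemma e0_eRk (m : ℕ) (a b : Fin 6) (hab : a ≠ b) :
    (MM m).eRk (Set.range (e0 m a b)) = ((m + 2 : ℕ) : ℕ∞) := by
  rw [(e0_indep m a b).eRk_eq_encard, ← Set.image_univ, (e0_inj m a b hab).encard_image,
    Set.encard_univ]
  simp

lemma e0_isFlat (m : ℕ) (a b : Fin 6) :
    (MM m).IsFlat (Set.range (e0 m a b)) := by
  have h := e0_indep m a b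
  rw [Matroid.isFlat_iff_closure_eq]
  refine subset_antisymm ?_ ((MM m).subset_closure _ (by rw [MM_ground]; exact Set.subset_univ _))
  intro x hx
  by_contra hx2
  have h3 : (MM m).Indep (insert x (Set.range (e0 m a b))) := by
    rw [MM_indep, e0_range]
    have h4 : (Sum.inl ⁻¹' (insert x (Sum.inl '' {a, b} ∪ Set.range Sum.inr)) : Set (Fin 6)) ⊆
        Sum.inl ⁻¹' {x} ∪ {a, b} := by
      intro y hy
      simp only [Set.mem_preimage, Set.mem_insert_iff, Set.mem_union, Set.mem_image,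
        Set.mem_range, Set.mem_singleton_iff] at hy ⊢
      rcases hy with hy | ⟨z, hz, hzy⟩ | ⟨z, hz⟩
      · exact Or.inl hy
      · right
        rw [← Sum.inl_injective hzy]
        exact hz
      · simp at hz
    refine (Set.encard_le_encard h4).trans ((Set.encard_union_le _ _).trans ?_)
    have h5 : (Sum.inl ⁻¹' {x} : Set (Fin 6)).encard ≤ 1 := by
      refine Set.encard_le_one_iff.2 ?_
      intro p q hp hq
      simp only [Set.mem_preimage, Set.mem_singleton_iff] at hp hq
      exact Sum.inl_injective (hp.trans hq.symm)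
    calc _ ≤ (1 : ℕ∞) + 2 := add_le_add h5 (pair_le a b)
      _ = 3 := by norm_num
  rw [h.mem_closure_iff_of_notMem hx2] at hx
  exact hx.not_indep h3

lemma neg_main (m : ℕ) (c : ℕ) (hc : c ≤ 1) : ¬ Distinguish (ZMod 7) (MM m) (emb m v1) (m + 2) c := by
  rintro ⟨L, hL⟩
  have hex : ∃ L0 : (V m) [⋀^Fin (m + 2)]→ₗ[ZMod 7] ZMod 7, ∀ i, L i = L0 := by
    rcases Nat.le_one_iff_eq_zero_or_eq_one.1 hc with rfl | rfl
    · exact ⟨0, fun i => i.elim0⟩
    · exact ⟨L 0, fun i => by rw [Subsingleton.elim i 0]⟩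
  obtain ⟨L0, hL0⟩ := hex
  let t : Fin m → V m := fun j => (0, Pi.single j 1)
  obtain ⟨a, b, hab, h0⟩ := cover (G L0 t (Pi.single 1 1) (Pi.single 2 1))
    (- G L0 t (Pi.single 0 1) (Pi.single 2 1)) (G L0 t (Pi.single 0 1) (Pi.single 1 1))
  rw [← alt_eq] at h0
  obtain ⟨i, e, he, hbas, hne⟩ := hL _ (e0_isFlat m a b) (e0_eRk m a b hab)
  have hr : Set.range e = Set.range (e0 m a b) := (e0_indep m a b).eq_of_isBasis hbas
  let σ : Equiv.Perm (Fin (m + 2)) := (Equiv.ofInjective e he).trans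
    ((Equiv.setCongr hr).trans (Equiv.ofInjective _ (e0_inj m a b hab)).symm)
  have hσ : e = e0 m a b ∘ σ := by
    funext x
    have h1 : (Equiv.ofInjective _ (e0_inj m a b hab)) (σ x) =
        (Equiv.setCongr hr) ((Equiv.ofInjective e he) x) := by
      simp [σ]
    have h2 := congrArg Subtype.val h1
    simpa using h2.symm
  apply hne
  rw [hL0, hσ, ← Function.comp_assoc, L0.map_perm]
  have h3 : emb m v1 ∘ e0 m a b =
      Matrix.vecCons ((v1 a, 0) : V m) (Matrix.vecCons ((v1 b, 0) : V m) t) := by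
    unfold e0
    funext x
    refine Fin.cases ?_ (fun x => ?_) x
    · simp [emb]
    · refine Fin.cases ?_ (fun x => ?_) x
      · simp [emb]
      · simp [emb, t]
  rw [h3]
  change _ • G L0 t (v1 a) (v1 b) = 0
  rw [h0, smul_zero]

/-- A basis of the representing space. -/
noncomputable def bs (m : ℕ) : Module.Basis (Fin (m + 3)) (ZMod 7) (V m) :=
  Module.finBasisOfFinrankEq (ZMod 7) (V m) (by
    rw [Module.finrank_prod, Module.finrank_fin_fun, Module.finrank_fin_fun]; ring)

/-- The alternating form `x ↦ det (p', x)` with `p' = (p, 1, …, 1)`. -/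
noncomputable def Lp (m : ℕ) (p : Fin 3 → ZMod 7) : (V m) [⋀^Fin (m + 2)]→ₗ[ZMod 7] ZMod 7 :=
  (bs m).det.curryLeft ((p, 1) : V m)

/-- `x ↦ det3 x u w` as a functional on the representing space. -/
def D (m : ℕ) (u w : Fin 3 → ZMod 7) : V m →ₗ[ZMod 7] ZMod 7 where
  toFun x := det3 x.1 u w
  map_add' x y := by simp only [det3, Prod.fst_add, Pi.add_apply]; ring
  map_smul' c x := by
    simp only [det3, Prod.smul_fst, Pi.smul_apply, smul_eq_mul, RingHom.id_apply]; ring

lemma pos_main (m : ℕ) (v : Fin 6 → Fin 3 → ZMod 7)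
    (hv : ∀ a b c : Fin 6, a ≠ b → a ≠ c → b ≠ c → det3 (v a) (v b) (v c) ≠ 0)
    (p : Fin 3 → ZMod 7) (e : Fin (m + 2) → Fin 6 ⊕ Fin m) (he : Function.Injective e)
    (hi : (MM m).Indep (Set.range e))
    (hp : ∀ a b, a ≠ b → Set.range e = Set.range (e0 m a b) → det3 p (v a) (v b) ≠ 0) :
    Lp m p (emb m v ∘ e) ≠ 0 := by
  have hli : LinearIndependent (ZMod 7) (emb m v ∘ e) := by
    rw [← linearIndepOn_range_iff he]
    exact (emb_rep m v hv _).1 hi
  have hnot : ((p, 1) : V m) ∉ Submodule.span (ZMod 7) (Set.range (emb m v ∘ e)) := by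
    intro hmem
    -- every coloop is used
    have hr : ∀ j : Fin m, Sum.inr j ∈ Set.range e := by
      intro j
      by_contra hj
      have hle : Submodule.span (ZMod 7) (Set.range (emb m v ∘ e)) ≤
          LinearMap.ker ((LinearMap.proj j : (Fin m → ZMod 7) →ₗ[ZMod 7] ZMod 7) ∘ₗ
            (LinearMap.snd (ZMod 7) (Fin 3 → ZMod 7) (Fin m → ZMod 7))) := by
        rw [Submodule.span_le]
        rintro _ ⟨i, rfl⟩
        have hi : e i ≠ Sum.inr j := fun h => hj ⟨i, h⟩
        simp only [Function.comp_apply, SetLike.mem_coe, LinearMap.mem_ker, LinearMap.comp_apply,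
          LinearMap.snd_apply, LinearMap.proj_apply]
        rcases hei : e i with a | l
        · simp [emb]
        · have : l ≠ j := fun h => hi (by rw [hei, h])
          simp [emb, Ne.symm this]
      have := hle hmem
      simp at this
    -- exactly two arc points are used
    have hun : Set.range e = Sum.inl '' (Sum.inl ⁻¹' Set.range e) ∪ Set.range Sum.inr := by
      ext x
      constructor
      · intro hx
        rcases x with a | l
        · exact Or.inl ⟨a, hx, rfl⟩
        · exact Or.inr ⟨l, rfl⟩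
      · rintro (⟨a, ha, rfl⟩ | ⟨l, rfl⟩)
        · exact ha
        · exact hr l
    have hcard : (Set.range e).encard = ((m + 2 : ℕ) : ℕ∞) := by
      rw [← Set.image_univ, he.encard_image, Set.encard_univ]
      simp
    have hdis : Disjoint (Sum.inl '' (Sum.inl ⁻¹' Set.range e) : Set (Fin 6 ⊕ Fin m))
        (Set.range Sum.inr) := by
      rw [Set.disjoint_left]
      rintro _ ⟨a, _, rfl⟩ ⟨l, hl⟩
      simp at hl
    have hA : (Sum.inl ⁻¹' Set.range e : Set (Fin 6)).encard = 2 := by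
      have hinr : (Set.range (Sum.inr : Fin m → Fin 6 ⊕ Fin m)).encard = (m : ℕ∞) := by
        rw [← Set.image_univ, Sum.inr_injective.encard_image, Set.encard_univ]
        simp
      have h1 := hcard
      rw [hun, Set.encard_union_eq hdis, Sum.inl_injective.encard_image, hinr] at h1
      have h2 : (Sum.inl ⁻¹' Set.range e : Set (Fin 6)).Finite := Set.toFinite _
      rw [← h2.cast_ncard_eq] at h1 ⊢
      have h3 : (Sum.inl ⁻¹' Set.range e : Set (Fin 6)).ncard + m = m + 2 := by
        exact_mod_cast h1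
      have h4 : (Sum.inl ⁻¹' Set.range e : Set (Fin 6)).ncard = 2 := by omega
      rw [h4]; rfl
    obtain ⟨a, b, hab, hA2⟩ := Set.encard_eq_two.1 hA
    have hre : Set.range e = Set.range (e0 m a b) := by
      rw [hun, hA2, e0_range]
    have hD := hp a b hab hre
    have hle : Submodule.span (ZMod 7) (Set.range (emb m v ∘ e)) ≤
        LinearMap.ker (D m (v a) (v b)) := by
      rw [Submodule.span_le]
      rintro _ ⟨i, rfl⟩
      rw [SetLike.mem_coe, LinearMap.mem_ker, Function.comp_apply]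
      have hei : e i ∈ Set.range (e0 m a b) := hre ▸ ⟨i, rfl⟩
      rw [e0_range] at hei
      rcases hei with ⟨x, hx, hxe⟩ | ⟨l, hl⟩
      · rw [← hxe]
        rcases hx with rfl | rfl
        · change det3 (v x) (v x) (v b) = 0
          unfold det3; ring
        · change det3 (v x) (v a) (v x) = 0
          unfold det3; ring
      · rw [← hl]
        change det3 0 (v a) (v b) = 0
        simp [det3]
    exact hD (hle hmem)
  have hli2 : LinearIndependent (ZMod 7)
      (Matrix.vecCons ((p, 1) : V m) (emb m v ∘ e) : Fin (m + 3) → V m) :=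
    linearIndependent_finCons.2 ⟨hli, hnot⟩
  have hspan := hli2.span_eq_top_of_card_eq_finrank' (by
    rw [Fintype.card_fin, Module.finrank_prod, Module.finrank_fin_fun, Module.finrank_fin_fun]
    omega)
  have hu := ((bs m).is_basis_iff_det).1 ⟨hli2, hspan⟩
  exact hu.ne_zero

lemma exists_enum (m : ℕ) (X : Set (Fin 6 ⊕ Fin m)) (hX : (MM m).eRk X = ((m + 2 : ℕ) : ℕ∞)) :
    ∃ e : Fin (m + 2) → Fin 6 ⊕ Fin m, Function.Injective e ∧ (MM m).IsBasis (Set.range e) X := by
  obtain ⟨I, hI⟩ := (MM m).exists_isBasis X (by rw [MM_ground]; exact Set.subset_univ X)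
  have hc : I.encard = ((m + 2 : ℕ) : ℕ∞) := by
    rw [hI.encard_eq_eRk, hX]
  have hn : Nat.card I = m + 2 := by
    have h1 : I.ncard = m + 2 := by
      rw [Set.ncard, hc]; rfl
    exact h1
  let f : I ≃ Fin (m + 2) := Finite.equivFinOfCardEq hn
  refine ⟨fun x => (f.symm x : Fin 6 ⊕ Fin m), ?_, ?_⟩
  · intro x y hxy
    exact f.symm.injective (Subtype.ext hxy)
  · have : Set.range (fun x => (f.symm x : Fin 6 ⊕ Fin m)) = I := by
      ext x
      constructor
      · rintro ⟨y, rfl⟩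
        exact (f.symm y).2
      · intro hx
        exact ⟨f ⟨x, hx⟩, by simp⟩
    rw [this]
    exact hI

lemma pos1 (m : ℕ) : Distinguish (ZMod 7) (MM m) (emb m v2) (m + 2) 1 := by
  refine ⟨fun _ => Lp m ![1, 5, 6], ?_⟩
  intro X _ hX
  obtain ⟨e, he, hb⟩ := exists_enum m X hX
  exact ⟨0, e, he, hb, pos_main m v2 hv2 _ e he hb.indep (fun a b hab _ => not_cover a b hab)⟩

lemma pos2 (m : ℕ) : Distinguish (ZMod 7) (MM m) (emb m v1) (m + 2) 2 := by
  refine ⟨![Lp m ![1, 0, 0], Lp m ![1, 1, 2]], ?_⟩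
  intro X _ hX
  obtain ⟨e, he, hb⟩ := exists_enum m X hX
  by_cases h : ∀ a b, a ≠ b → Set.range e = Set.range (e0 m a b) →
      det3 ![1, 0, 0] (v1 a) (v1 b) ≠ 0
  · exact ⟨0, e, he, hb, pos_main m v1 hv1 _ e he hb.indep h⟩
  · push Not at h
    obtain ⟨a, b, hab, hr, h0⟩ := h
    refine ⟨1, e, he, hb, pos_main m v1 hv1 _ e he hb.indep ?_⟩
    intro a' b' hab' hr'
    have hset : ({a, b} : Set (Fin 6)) = {a', b'} := by
      rw [← e0_pre m a b, ← e0_pre m a' b', ← hr, ← hr']
    have h2 : det3 ![1, 1, 2] (v1 a) (v1 b) ≠ 0 := (two_cover a b hab).resolve_left (by simp [h0])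
    have h3 := Set.pair_eq_pair_iff.1 hset
    rcases h3 with ⟨rfl, rfl⟩ | ⟨rfl, rfl⟩
    · exact h2
    · intro h4
      apply h2
      have h5 : det3 ![1, 1, 2] (v1 a) (v1 b) = - det3 ![1, 1, 2] (v1 b) (v1 a) := by
        unfold det3; ring
      rw [h5, h4, neg_zero]

lemma neg0 (m : ℕ) (v : Fin 6 → Fin 3 → ZMod 7) :
    ¬ Distinguish (ZMod 7) (MM m) (emb m v) (m + 2) 0 := by
  rintro ⟨L, hL⟩
  obtain ⟨i, _⟩ := hL _ (e0_isFlat m 0 1) (e0_eRk m 0 1 (by decide))
  exact i.elim0

/-- Transport along a linear isomorphism of the representing space. -/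
lemma distinguish_equiv {S F V W : Type} [Field F] [AddCommGroup V] [Module F V]
    [AddCommGroup W] [Module F W] (M : Matroid S) (φ : S → V) (ψ : V ≃ₗ[F] W) (k c : ℕ) :
    Distinguish F M (ψ ∘ φ) k c ↔ Distinguish F M φ k c := by
  constructor
  · rintro ⟨L, hL⟩
    refine ⟨fun i => (L i).compLinearMap (ψ : V →ₗ[F] W), ?_⟩
    intro X hX hk
    obtain ⟨i, e, he, hb, hne⟩ := hL X hX hk
    exact ⟨i, e, he, hb, hne⟩
  · rintro ⟨L, hL⟩
    refine ⟨fun i => (L i).compLinearMap (ψ.symm : W →ₗ[F] V), ?_⟩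
    intro X hX hk
    obtain ⟨i, e, he, hb, hne⟩ := hL X hX hk
    refine ⟨i, e, he, hb, ?_⟩
    have h1 : (fun x => ψ.symm (ψ (φ (e x)))) = φ ∘ e := by
      funext x; simp
    rw [AlternatingMap.compLinearMap_apply]
    simpa [Function.comp_def] using hne

lemma represents_equiv {S F V W : Type} [Field F] [AddCommGroup V] [Module F V]
    [AddCommGroup W] [Module F W] (M : Matroid S) (φ : S → V) (ψ : V ≃ₗ[F] W)
    (h : Represents F M φ) : Represents F M (ψ ∘ φ) := by
  intro I
  rw [h I]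
  constructor
  · intro h1
    exact h1.map_injOn (ψ : V →ₗ[F] W) ψ.injective.injOn
  · intro h1
    exact h1.of_comp (ψ : V →ₗ[F] W)

/-- **The algebraic critical exponent depends on the representation for every `k ≥ 2`.**
For every `k ≥ 2` there are a loopless matroid `M` on a finite set and two representations
of `M` by vectors of `GF(7)^(k+1)` such that the algebraic critical exponent of the `k`-flats is
`2` in the first and `1` in the second representation. -/
theorem result : ∀ k : ℕ, 2 ≤ k →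
    ∃ (S : Type) (_ : Finite S) (M : Matroid S) (φ₁ φ₂ : S → (Fin (k + 1) → ZMod 7)),
      M.E = Set.univ ∧ M.Loopless ∧
      Represents (ZMod 7) M φ₁ ∧ Represents (ZMod 7) M φ₂ ∧
      critExp (ZMod 7) M φ₁ k = 2 ∧ critExp (ZMod 7) M φ₂ k = 1 := by
  intro k hk
  obtain ⟨m, rfl⟩ := Nat.exists_eq_add_of_le' hk
  let ψ : V m ≃ₗ[ZMod 7] (Fin (m + 2 + 1) → ZMod 7) := LinearEquiv.ofFinrankEq _ _ (by
    rw [Module.finrank_prod, Module.finrank_fin_fun, Module.finrank_fin_fun,
      Module.finrank_fin_fun]; ring)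
  refine ⟨Fin 6 ⊕ Fin m, inferInstance, MM m, ψ ∘ emb m v1, ψ ∘ emb m v2, MM_ground m,
    MM_loopless m, represents_equiv _ _ ψ (emb_rep m v1 hv1),
    represents_equiv _ _ ψ (emb_rep m v2 hv2), ?_, ?_⟩
  · have h2 : (2 : ℕ) ∈ {c : ℕ | Distinguish (ZMod 7) (MM m) (ψ ∘ emb m v1) (m + 2) c} :=
      (distinguish_equiv _ _ ψ _ _).2 (pos2 m)
    refine le_antisymm (Nat.sInf_le h2) ?_
    refine le_csInf ⟨2, h2⟩ ?_
    intro c hc
    by_contra hlt
    exact neg_main m c (by omega) ((distinguish_equiv _ _ ψ _ _).1 hc)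
  · have h1 : (1 : ℕ) ∈ {c : ℕ | Distinguish (ZMod 7) (MM m) (ψ ∘ emb m v2) (m + 2) c} :=
      (distinguish_equiv _ _ ψ _ _).2 (pos1 m)
    refine le_antisymm (Nat.sInf_le h1) ?_
    refine le_csInf ⟨1, h1⟩ ?_
    intro c hc
    by_contra hlt
    have h0 : c = 0 := by omega
    subst h0
    exact neg0 m v2 ((distinguish_equiv _ _ ψ _ _).1 hc)

end Pool.Agent.Results.MP_bc6ab1_co.EveryK
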